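import Pool.Agent.X324.CG.Num

set_option autoImplicit false

/-!
# Weak generalised nonvanishing on quotients `(A × F) / G`

Let `X = (A × F) / G` be projective, where `A = V / Λ` is an abelian variety, `F` a normal projective
`ℚ`-factorial variety with free class group, and `G` a finite group which acts on both factors; the
action may have fixed points and fixed divisors, and `X` may be singular. `F` may be a product of
varieties `F i`, so that `Cl(F)` is the sum of the `Cl(F i)`; the map `c` says to which factor a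
coordinate of `Cl(F) = ℤ^ρ` belongs. Let `ℳ` and `𝓛` be nef reflexive sheaves of rank one on `X`, for
instance `ℳ = O_X(m (K_X + Δ))`. The theorem says: if the classes `M_i + t L_i` of the restrictions to
all `F i` are numerically effective for all real `t ≥ 0`, then `M + t L` is numerically effective on
`X` for all real `t ≥ 0`. So the weak generalised nonvanishing conjecture for
`(F i, Δ i, L i)` implies the conjecture for `(X, Δ, L)`: the hypotheses (klt, `K + Δ` nef, `L` nef,
non-uniruled, maximal nef dimension) pass from `X` to the general fibres of `X → A / G`. (The last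
sentence is a remark.)

The proof: `N^1(X)` is the product of a space of hermitian forms on `V` and of the space of the
`G`-invariant classes of `F`. The Chern forms of `ℳ` and `𝓛` are semidefinite, and such rational forms
are classes of effective divisors (theta functions). The degree of `M + t L` is invariant and is
effective on `F`; norms of sections show that it is effective on `X`.

`Cl`, `Grp`, `IsQuotient`, `Sheaf`, `IsClass`, `N1`, `nefCone` and `effCone` are defined in
`Pool.Agent.X324.CF.Defs`; `IsCoxRing`, `part`, `real` and `effF` in `Pool.Agent.X324.CG.Defs`;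
`IsTorusQuotient` in `Pool.Agent.W594.SYZ.Defs2`; `IsPositiveForm` in
`Pool.Agent.W594.SYZ.TQDefs`.
-/

namespace Pool.Agent.Results.MP_b2cf3d_ag.ProductQuotients

open Pool.Agent.W594.SYZ2 Pool.Agent.TH735.AQ Pool.Agent.X324.CF
open Pool.Agent.X324.CG (IsCoxRing part real effF)

/-- The space `N^1(X)`. (In the absolute case the linear subspace `E` of `V` of the general
definitions is `V` itself, embedded by the identity map.) -/
abbrev NS {V R : Type*} [NormedAddCommGroup V] [NormedSpace ℂ V] [CommRing R] [Algebra ℂ R] {ρ : ℕ}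
    (𝒜 : Cl ρ → Submodule ℂ R) (Γ : Grp V R) : Type _ :=
  N1 𝒜 Γ (LinearMap.id : V →ₗ[ℂ] V)

/-- Let `X = (V × F) / Γ` be a projective quotient, and let `ℳ` and `𝓛` be reflexive sheaves of rank
one on `X` with nef classes `x` and `y`. If `real (part c i ℳ.deg) + t • real (part c i 𝓛.deg)` is in
the effective cone of `F i` for all `i` and all real `t ≥ 0`, then `x + t • y` is in the effective cone
of `X` for all real `t ≥ 0`. -/
theorem result {V R κ : Type*} [NormedAddCommGroup V] [NormedSpace ℂ V] [FiniteDimensional ℂ V]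
    [CommRing R] [IsDomain R] [Algebra ℂ R] [DecidableEq κ] [Fintype κ] {ρ : ℕ}
    (𝒜 : Cl ρ → Submodule ℂ R) [GradedAlgebra 𝒜] (u : Cl ρ) (hF : IsCoxRing 𝒜 u)
    (c : Fin ρ → κ) (Γ : Grp V R) (hX : IsQuotient 𝒜 u Γ)
    (hproj : ∃ (L : Sheaf 𝒜 Γ) (H : V → V → ℂ), L.IsChern H ∧ IsPositiveForm H)
    (ℳ 𝓛 : Sheaf 𝒜 Γ) (x y : NS 𝒜 Γ) (hx : IsClass LinearMap.id ℳ (val x))
    (hy : IsClass LinearMap.id 𝓛 (val y)) (hxn : x ∈ nefCone 𝒜 Γ LinearMap.id u)
    (hyn : y ∈ nefCone 𝒜 Γ LinearMap.id u)
    (hfib : ∀ t : ℝ, 0 ≤ t → ∀ i,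
      real (part c i ℳ.deg) + t • real (part c i 𝓛.deg) ∈ effF 𝒜 c i) :
    ∀ t : ℝ, 0 ≤ t → x + t • y ∈ effCone 𝒜 Γ LinearMap.id := by
  intro t ht
  obtain ⟨H₀, Rl⟩ := rel_id hX hproj
  obtain ⟨d, D⟩ := hF.sys_nef (𝒮 := gal Γ) fun _ h => Pool.Agent.X324.CG.gal_aut hX h
  have h1 := (Pool.Agent.X324.SA.nef_sub hF hX hxn).1
  have h2 := (Pool.Agent.X324.SA.nef_sub hF hX hyn).1
  have h3 : (val x).2 = rv ℳ.deg := funext hx.2
  have h4 : (val y).2 = rv 𝓛.deg := funext hy.2
  have h5 : (val (x + t • y)).2 = rv ℳ.deg + t • rv 𝓛.deg := by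
    change (val x).2 + t • (val y).2 = _
    rw [h3, h4]
  refine Pool.Agent.X324.CG.comb_eff D.base hX Rl ⟨ℳ, hx⟩ ⟨𝓛, hy⟩ h1 h2 ht ?_
  rw [h5]
  refine Pool.Agent.X324.CG.EQ_inter D hX ?_ ?_
  · refine Pool.Agent.X324.CG.eff_of_parts (c := c) fun i => ?_
    rw [map_add, map_smul, Pool.Agent.X324.CG.partR_rv, Pool.Agent.X324.CG.partR_rv]
    exact hfib t ht i
  · exact Submodule.add_mem _ (Submodule.subset_span ⟨_, ℳ.inv, rfl⟩)
      (Submodule.smul_mem _ t (Submodule.subset_span ⟨_, 𝓛.inv, rfl⟩))

end Pool.Agent.Results.MP_b2cf3d_ag.ProductQuotients
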